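import Pool.Agent.V11250.NilpLie

/-!
# MP_8011ed_lc: the varieties of nilpotent Lie algebras are logically perfect and regular
-/

set_option autoImplicit false

namespace Pool.Agent.Results.MP_8011ed_lc.PerfectRegular

open FirstOrder Pool.Agent.Helper771.LieHomog Pool.Agent.V11250.IsoDefs
  Pool.Agent.V11250.NilpLieDefs Pool.Agent.Y624.RF

universe u

/-- For every field `K` and every `n ≥ 1` the variety of the Lie algebras over `K` which are
nilpotent of class at most `n` is logically perfect and logically regular. -/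
theorem result (K : Type u) [Field K] (n : ℕ) (_hn : 1 ≤ n) :
    LogicallyPerfect K n ∧ LogicallyRegular K n := by
  -- homogeneity
  have hom : ∀ (r : ℕ) (A : Type u) [LieRing A] [LieAlgebra K A] (x : Fin r → A),
      IsFreeIn K n r A x → Homogeneous K A := by
    intro r A _ _ x hx m μ ν
    constructor
    · intro h
      exact lie_homogeneous hx.relFree ⟨n, hx.1⟩ m μ ν (fun φ => Set.ext_iff.1 h φ)
    · rintro ⟨σ, h⟩
      exact lie_tp_eq_of_aut μ ν σ h
  refine ⟨hom, ?_⟩
  -- separability
  intro r A _ _ x hx B _ _ hB hiso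
  have hx' := hx.relFree
  obtain ⟨y, hxy, hy⟩ := exists_gen x 0 (by
    intro ν hν a
    obtain ⟨σ, h⟩ := (hom r A x hx r x ν).1 hν.symm
    obtain ⟨b, rfl⟩ := σ.surjective a
    obtain ⟨t, rfl⟩ := exists_lie_term hx' b
    refine ⟨t, ?_⟩
    have h1 := lie_hom_realize (σ : A →ₗ⁅K⁆ A) x t
    refine Eq.trans ?_ h1.symm
    congr 1
    funext i
    exact (h i).symm) hiso
  obtain ⟨f, hf, _⟩ := hx.2 B hB y
  have hft : ∀ t : (lieLang K).Term (Fin r), f (t.realize x) = t.realize y := by
    intro t
    rw [lie_hom_realize]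
    congr 1
    funext i
    exact hf i
  refine ⟨LieEquiv.ofBijective f ⟨?_, ?_⟩⟩
  · rw [injective_iff_map_eq_zero]
    intro a ha
    obtain ⟨t, rfl⟩ := exists_lie_term hx' a
    rw [hft] at ha
    have h0 : ∀ {C : Type u} [LieRing C] [LieAlgebra K C] (v : Fin r → C),
        (Language.Term.func (l := 0) (LieFn.zero : LieFn K 0) ![] :
          (lieLang K).Term (Fin r)).realize v = 0 := fun _ => rfl
    have h1 := (eq_iff_of_tp hxy t
      (Language.Term.func (l := 0) (LieFn.zero : LieFn K 0) ![])).2
    rw [h0, h0] at h1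
    exact h1 ha
  · intro u
    obtain ⟨t, rfl⟩ := hy u
    exact ⟨t.realize x, hft t⟩

end Pool.Agent.Results.MP_8011ed_lc.PerfectRegular
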